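import Mathlib

/-!
# Counting tools for inclusions of pattern languages
-/

namespace Pool.Agent.W1.Pat

open Finset

/-- triangular systems of equations have few solutions -/
theorem card_tri {V A : Type} [Fintype V] [Fintype A] [DecidableEq V] [DecidableEq A] {m : ℕ}
    (x : Fin m → V) (hx : Function.Injective x) (T : Fin m → (V → A) → A)
    (hT : ∀ v u u', (∀ y, (∀ v', v ≤ v' → y ≠ x v') → u y = u' y) → T v u = T v u') :
    (univ.filter fun u : V → A => ∀ v, u (x v) = T v u).card * Fintype.card A ^ m ≤
      Fintype.card A ^ Fintype.card V := by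
  classical
  have h1 : Fintype.card ({u : V → A // ∀ v, u (x v) = T v u} × (Fin m → A)) ≤
      Fintype.card (V → A) := by
    refine Fintype.card_le_of_injective (fun w => Function.extend x w.2 w.1.1) ?_
    rintro ⟨⟨u, hu⟩, y⟩ ⟨⟨u', hu'⟩, y'⟩ h
    simp only at h
    have hy : y = y' := by
      funext v
      have := congrFun h (x v)
      rwa [hx.extend_apply, hx.extend_apply] at this
    have hoff : ∀ z, (∀ v, z ≠ x v) → u z = u' z := by
      intro z hz
      have := congrFun h z
      rwa [Function.extend_apply' _ _ _ (by rintro ⟨v, hv⟩; exact hz v hv.symm),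
        Function.extend_apply' _ _ _ (by rintro ⟨v, hv⟩; exact hz v hv.symm)] at this
    have hon : ∀ k, ∀ v : Fin m, v.val = k → u (x v) = u' (x v) := by
      intro k
      induction k using Nat.strong_induction_on with
      | _ k ih =>
        intro v hv
        rw [hu v, hu' v]
        apply hT
        intro z hz
        by_cases h2 : ∃ v', z = x v'
        · obtain ⟨v', rfl⟩ := h2
          have h3 : v' < v := by
            by_contra h4
            exact hz v' (not_lt.mp h4) rfl
          exact ih v'.val (by rw [← hv]; exact h3) v' rfl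
        · push Not at h2
          exact hoff z h2
    have hu2 : u = u' := by
      funext z
      by_cases h2 : ∃ v', z = x v'
      · obtain ⟨v', rfl⟩ := h2
        exact hon _ v' rfl
      · push Not at h2
        exact hoff z h2
    subst hu2
    subst hy
    rfl
  rw [Fintype.card_prod, Fintype.card_fun, Fintype.card_fun, Fintype.card_fin,
    Fintype.card_subtype] at h1
  exact h1

/-- the number of monotone maps -/
theorem card_mono (m l : ℕ) :
    Nat.card {f : Fin m → Fin (l + 1) // Monotone f} ≤ (m + l).choose l := by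
  classical
  have h1 : Nat.card {f : Fin m → Fin (l + 1) // Monotone f} ≤
      Nat.card (Sym (Fin (l + 1)) m) := by
    refine Nat.card_le_card_of_injective
      (fun f => (⟨(List.ofFn f.1 : Multiset (Fin (l + 1))), by simp⟩ : Sym (Fin (l + 1)) m)) ?_
    rintro ⟨f, hf⟩ ⟨g, hg⟩ h
    have h2 : (List.ofFn f : Multiset (Fin (l + 1))) = List.ofFn g := congrArg Subtype.val h
    have h3 : (List.ofFn f).Perm (List.ofFn g) := Multiset.coe_eq_coe.mp h2
    have h4 : List.ofFn f = List.ofFn g :=
      h3.eq_of_pairwise' (List.pairwise_ofFn.mpr fun i j hij => hf hij.le)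
        (List.pairwise_ofFn.mpr fun i j hij => hg hij.le)
    have h5 : f = g := List.ofFn_injective h4
    subst h5
    rfl
  refine h1.trans ?_
  rw [Nat.card_eq_fintype_card, Sym.card_sym_eq_choose, Fintype.card_fin]
  have : l + 1 + m - 1 = m + l := by omega
  rw [this, Nat.choose_symm_of_eq_add (by omega : m + l = m + l)]

/-- a bound for binomial coefficients -/
theorem choose_bound (c l : ℕ) (hc : 1 ≤ c) (hl : 1 ≤ l) :
    ((c + 1) * l).choose l * (c ^ c) ^ l < ((c + 1) ^ (c + 1)) ^ l := by
  have h1 : ((c + 1) ^ (c + 1)) ^ l =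
      ∑ k ∈ range ((c + 1) * l + 1), c ^ k * 1 ^ ((c + 1) * l - k) * ((c + 1) * l).choose k := by
    rw [← pow_mul, add_pow]
    simp
  rw [h1]
  have h2 : ((c + 1) * l).choose l * (c ^ c) ^ l =
      c ^ (c * l) * 1 ^ ((c + 1) * l - c * l) * ((c + 1) * l).choose (c * l) := by
    rw [one_pow, mul_one, ← pow_mul, mul_comm]
    congr 1
    exact (Nat.choose_symm_of_eq_add (by ring)).symm
  rw [h2]
  refine Finset.single_lt_sum (j := 0) (i := c * l)
    (f := fun k => c ^ k * 1 ^ ((c + 1) * l - k) * ((c + 1) * l).choose k) ?_ ?_ ?_ ?_ ?_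
  · have : 0 < c * l := Nat.mul_pos hc hl
    omega
  · simp only [mem_range]
    have : (c + 1) * l = c * l + l := by ring
    omega
  · simp
  · simp
  · intro k _ _
    positivity

end Pool.Agent.W1.Pat
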