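import Mathlib
import Pool.Agent.H344R3.PD.Depth
import Pool.Agent.W1.PatCount

/-!
# Inclusions of pattern languages: the number of variables
-/

namespace Pool.Agent.W1.Pat

open Pool.Agent.PatDepth Pool.Agent.H344R3.PD

section take
variable {A : Type}

lemma vars_append_inl (r : List (ℕ ⊕ A)) (x : ℕ) : vars (r ++ [Sum.inl x]) = insert x (vars r) := by
  ext y
  simp only [mem_vars', List.mem_append, List.mem_singleton, Finset.mem_insert, Sum.inl.injEq]
  tauto

lemma vars_append_inr (r : List (ℕ ⊕ A)) (a : A) : vars (r ++ [Sum.inr a]) = vars r := by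
  ext y
  simp [mem_vars']

lemma take_succ' (r : List (ℕ ⊕ A)) (t : ℕ) : r.take (t + 1) = r.take t ++ r[t]?.toList := by
  rw [List.take_add_one]

/-- the four cases for the next symbol -/
lemma nv_cases (r : List (ℕ ⊕ A)) (t : ℕ) :
    (r[t]? = none ∧ nvar (r.take (t + 1)) = nvar (r.take t)) ∨
    (∃ a, r[t]? = some (Sum.inr a) ∧ nvar (r.take (t + 1)) = nvar (r.take t)) ∨
    (∃ x, r[t]? = some (Sum.inl x) ∧ x ∈ vars (r.take t) ∧
      nvar (r.take (t + 1)) = nvar (r.take t)) ∨
    (∃ x, r[t]? = some (Sum.inl x) ∧ x ∉ vars (r.take t) ∧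
      nvar (r.take (t + 1)) = nvar (r.take t) + 1) := by
  rw [take_succ']
  rcases h : r[t]? with _ | s
  · left; simp
  · rcases s with x | a
    · by_cases hx : x ∈ vars (r.take t)
      · right; right; left
        refine ⟨x, rfl, hx, ?_⟩
        rw [Option.toList_some, ← card_vars, vars_append_inl, Finset.insert_eq_self.mpr hx, card_vars]
      · right; right; right
        refine ⟨x, rfl, hx, ?_⟩
        rw [Option.toList_some, ← card_vars, vars_append_inl, Finset.card_insert_of_notMem hx,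
          card_vars]
    · right; left
      refine ⟨a, rfl, ?_⟩
      rw [Option.toList_some, ← card_vars, vars_append_inr, card_vars]

lemma mem_vars_take {r : List (ℕ ⊕ A)} {t x : ℕ} :
    x ∈ vars (r.take t) ↔ ∃ e < t, r[e]? = some (Sum.inl x) := by
  rw [mem_vars', List.mem_iff_getElem?]
  constructor
  · rintro ⟨e, he⟩
    rw [List.getElem?_take] at he
    split_ifs at he with h
    exact ⟨e, h, he⟩
  · rintro ⟨e, h, he⟩
    exact ⟨e, by rw [List.getElem?_take, if_pos h]; exact he⟩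

lemma nv_zero (r : List (ℕ ⊕ A)) : nvar (r.take 0) = 0 := by simp [nvar]

lemma nv_le (r : List (ℕ ⊕ A)) (t : ℕ) : nvar (r.take t) ≤ nvar (r.take (t + 1)) := by
  rcases nv_cases r t with h | ⟨_, _, h⟩ | ⟨_, _, _, h⟩ | ⟨_, _, _, h⟩
  · omega
  all_goals omega

lemma nv_lip (r : List (ℕ ⊕ A)) (t : ℕ) : nvar (r.take (t + 1)) ≤ nvar (r.take t) + 1 := by
  rcases nv_cases r t with h | ⟨_, _, h⟩ | ⟨_, _, _, h⟩ | ⟨_, _, _, h⟩
  · omega
  all_goals omega

lemma nv_new {r : List (ℕ ⊕ A)} {t : ℕ} (h : nvar (r.take (t + 1)) = nvar (r.take t) + 1) :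
    ∃ x, r[t]? = some (Sum.inl x) ∧ ∀ e < t, r[e]? ≠ some (Sum.inl x) := by
  rcases nv_cases r t with h' | ⟨_, _, h'⟩ | ⟨_, _, _, h'⟩ | ⟨x, hx, hx2, h'⟩
  · omega
  · omega
  · omega
  · refine ⟨x, hx, fun e he h2 => hx2 (mem_vars_take.mpr ⟨e, he, h2⟩)⟩

lemma nv_old {r : List (ℕ ⊕ A)} {t : ℕ} (ht : t < r.length)
    (h : nvar (r.take (t + 1)) = nvar (r.take t)) :
    (∃ c, r[t]? = some (Sum.inr c)) ∨
      ∃ x, ∃ e < t, r[t]? = some (Sum.inl x) ∧ r[e]? = some (Sum.inl x) := by
  rcases nv_cases r t with h' | ⟨c, hc, h'⟩ | ⟨x, hx, hx2, h'⟩ | ⟨x, hx, hx2, h'⟩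
  · have := h'.1
    rw [List.getElem?_eq_none_iff] at this
    omega
  · exact Or.inl ⟨c, hc⟩
  · obtain ⟨e, he, he2⟩ := mem_vars_take.mp hx2
    exact Or.inr ⟨x, e, he, hx, he2⟩
  · omega

end take

section cross
variable {P Q : ℕ → ℕ}

/-- the candidates for the crossing -/
def S (P Q : ℕ → ℕ) (v a : ℕ) : Set ℕ := {i | Q (i + 1) + a + v ≤ P (i + 1 + a)}

/-- the crossing position -/
noncomputable def cr (P Q : ℕ → ℕ) (v a : ℕ) : ℕ := sInf (S P Q v a)

lemma lip_add (hP : ∀ t, P (t + 1) ≤ P t + 1) (t d : ℕ) : P (t + d) ≤ P t + d := by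
  induction d with
  | zero => simp
  | succ d ih =>
    have := hP (t + d)
    rw [← add_assoc]
    omega

lemma cr_spec (hP0 : P 0 = 0) (hP : ∀ t, P (t + 1) ≤ P t + 1) (hQ : ∀ t, Q t ≤ Q (t + 1))
    {v a : ℕ} (hv : 1 ≤ v) (hne : (S P Q v a).Nonempty) :
    Q (cr P Q v a + 1) = Q (cr P Q v a) ∧
    P (cr P Q v a + a + 1) = P (cr P Q v a + a) + 1 ∧
    P (cr P Q v a + a) + 1 = Q (cr P Q v a) + a + v := by
  have h1 : cr P Q v a ∈ S P Q v a := Nat.sInf_mem hne
  set i := cr P Q v a with hi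
  have h1' : Q (i + 1) + a + v ≤ P (i + 1 + a) := h1
  have h2 : P (i + a) < Q i + a + v := by
    rcases Nat.eq_zero_or_pos i with h0 | h0
    · have := lip_add hP 0 a
      rw [h0]
      rw [hP0] at this
      simp only [zero_add] at this ⊢
      omega
    · obtain ⟨j, hj⟩ : ∃ j, i = j + 1 := ⟨i - 1, by omega⟩
      have h3 : j ∉ S P Q v a := Nat.notMem_of_lt_sInf (by
        show j < cr P Q v a
        rw [← hi]; omega)
      have h4 : ¬ (Q (j + 1) + a + v ≤ P (j + 1 + a)) := h3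
      rw [hj]
      omega
  have h5 := hP (i + a)
  have h6 := hQ i
  have h7 : i + 1 + a = i + a + 1 := by ring
  rw [h7] at h1'
  omega

lemma S_anti (hP : ∀ t, P (t + 1) ≤ P t + 1) {v v' a a' : ℕ} (hv : v ≤ v') (ha : a ≤ a') :
    S P Q v' a' ⊆ S P Q v a := by
  intro i hi
  have h1 : Q (i + 1) + a' + v' ≤ P (i + 1 + a') := hi
  have h2 := lip_add hP (i + 1 + a) (a' - a)
  have h3 : i + 1 + a + (a' - a) = i + 1 + a' := by omega
  rw [h3] at h2
  show Q (i + 1) + a + v ≤ P (i + 1 + a)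
  omega

lemma cr_mono (hP : ∀ t, P (t + 1) ≤ P t + 1) {v v' a a' : ℕ} (hv : v ≤ v') (ha : a ≤ a')
    (hne : (S P Q v' a').Nonempty) : cr P Q v a ≤ cr P Q v' a' :=
  Nat.sInf_le (S_anti hP hv ha (Nat.sInf_mem hne))

lemma time_lt (hP0 : P 0 = 0) (hP : ∀ t, P (t + 1) ≤ P t + 1) (hQ : ∀ t, Q t ≤ Q (t + 1))
    {v v' a a' : ℕ} (hv1 : 1 ≤ v) (hv : v < v') (ha : a ≤ a') (hne : (S P Q v a).Nonempty)
    (hne' : (S P Q v' a').Nonempty) : cr P Q v a + a < cr P Q v' a' + a' := by
  have h1 := cr_mono hP hv.le ha hne'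
  have h2 := cr_spec hP0 hP hQ hv1 hne
  have h3 := cr_spec hP0 hP hQ (by omega : 1 ≤ v') hne'
  by_contra h4
  have h5 : cr P Q v a = cr P Q v' a' := by omega
  have h6 : a = a' := by omega
  rw [← h5, ← h6] at h3
  omega

/-- every monotone path crosses -/
lemma crossing (hP : ∀ t, P (t + 1) ≤ P t + 1) {n l m v : ℕ} (hn : 1 ≤ n)
    (hend : Q n + l + m ≤ P (n + l)) {α : ℕ → ℕ} (hα : Monotone α) (hl : ∀ i, α i ≤ l)
    (hv : v ≤ m) :
    (sInf {i | i ∈ S P Q v (α i)}) < n ∧
    {i | i ∈ S P Q v (α i)}.Nonempty ∧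
    (sInf {i | i ∈ S P Q v (α i)}) ∈ S P Q v (α (sInf {i | i ∈ S P Q v (α i)})) ∧
    cr P Q v (α (sInf {i | i ∈ S P Q v (α i)})) = sInf {i | i ∈ S P Q v (α i)} := by
  have h1 : n - 1 ∈ {i | i ∈ S P Q v (α i)} := by
    show Q (n - 1 + 1) + α (n - 1) + v ≤ P (n - 1 + 1 + α (n - 1))
    have h2 := lip_add hP (n + α (n - 1)) (l - α (n - 1))
    have h3 := hl (n - 1)
    have h4 : n + α (n - 1) + (l - α (n - 1)) = n + l := by omega
    rw [h4] at h2
    have h5 : n - 1 + 1 = n := by omega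
    rw [h5]
    omega
  have hne : {i | i ∈ S P Q v (α i)}.Nonempty := ⟨_, h1⟩
  have h2 := Nat.sInf_mem hne
  have h3 := Nat.sInf_le h1
  set i := sInf {i | i ∈ S P Q v (α i)} with hi
  refine ⟨by omega, hne, h2, ?_⟩
  refine le_antisymm (Nat.sInf_le h2) ?_
  by_contra h4
  push Not at h4
  have h5 : cr P Q v (α i) ∈ S P Q v (α i) := Nat.sInf_mem ⟨i, h2⟩
  have h6 : cr P Q v (α i) ∉ {i | i ∈ S P Q v (α i)} := Nat.notMem_of_lt_sInf h4
  exact h6 (S_anti hP le_rfl (hα h4.le) h5)

end cross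

section path
variable {A : Type}

lemma ex_append {τ : ℕ → List A} (hτ : ∀ x, τ x ≠ []) (r r' : List (ℕ ⊕ A)) :
    (subst τ (r ++ r')).length - (r ++ r').length =
      ((subst τ r).length - r.length) + ((subst τ r').length - r'.length) := by
  rw [subst_append, List.length_append, List.length_append]
  have := length_le hτ r
  have := length_le hτ r'
  omega

lemma path_exists [Inhabited A] {q : List (ℕ ⊕ A)} {w : List A} {l : ℕ} (hw : w ∈ Lang q)
    (hl : w.length = q.length + l) : ∃ (α : ℕ → ℕ) (h : ℕ ⊕ A → A), Monotone α ∧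
      (∀ i, α i ≤ l) ∧ (∀ c, h (Sum.inr c) = c) ∧
      ∀ i s, q[i]? = some s → w[i + α i]? = some (h s) := by
  obtain ⟨τ, hτ, rfl⟩ := hw
  refine ⟨fun i => (subst τ (q.take i)).length - (q.take i).length,
    fun s => (Sum.elim τ (fun a => [a]) s).headD default, ?_, ?_, ?_, ?_⟩
  · intro i j hij
    have h1 : q.take j = q.take i ++ (q.take j).drop i := by
      conv_lhs => rw [← List.take_append_drop i (q.take j)]
      rw [List.take_take, min_eq_left hij]
    show _ ≤ (subst τ (q.take j)).length - (q.take j).length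
    rw [h1, ex_append hτ]
    exact Nat.le_add_right _ _
  · intro i
    have h1 := ex_append hτ (q.take i) (q.drop i)
    rw [List.take_append_drop] at h1
    show (subst τ (q.take i)).length - (q.take i).length ≤ l
    omega
  · intro c
    rfl
  · intro i s hs
    obtain ⟨hi, hs'⟩ := List.getElem?_eq_some_iff.mp hs
    have h1 : q = q.take i ++ s :: q.drop (i + 1) := by
      conv_lhs => rw [← List.take_append_drop i q, List.drop_eq_getElem_cons hi, hs']
    have h2 : (q.take i).length = i := by rw [List.length_take]; omega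
    have h3 := length_le hτ (q.take i)
    have h4 : i + ((subst τ (q.take i)).length - (q.take i).length) =
        (subst τ (q.take i)).length := by omega
    show (subst τ q)[i + ((subst τ (q.take i)).length - (q.take i).length)]? = _
    rw [h4]
    conv_lhs => rw [h1]
    rw [subst_append, subst_cons]
    have h5 : (subst τ ((q.take i ++ s :: q.drop (i + 1)).take i)).length =
        (subst τ (q.take i)).length := by rw [← h1]
    rw [h5]
    rw [List.getElem?_append_right le_rfl, Nat.sub_self]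
    cases s with
    | inl x =>
      simp only [Sum.elim_inl]
      have := hτ x
      cases hx : τ x with
      | nil => exact absurd hx this
      | cons a t => simp
    | inr a => simp

end path

end Pool.Agent.W1.Pat
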