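import Mathlib
import Pool.Agent.W1.PatPath

/-!
# The main inequality for inclusions of pattern languages
-/

namespace Pool.Agent.W1.Pat

open Pool.Agent.PatDepth Pool.Agent.H344R3.PD Finset

section main
variable {A : Type}

/-- number of distinct variables among the first `t` symbols -/
def nv (r : List (ℕ ⊕ A)) (t : ℕ) : ℕ := nvar (r.take t)

lemma nv0 (r : List (ℕ ⊕ A)) : nv r 0 = 0 := nv_zero r

lemma nv1 (r : List (ℕ ⊕ A)) (t : ℕ) : nv r (t + 1) ≤ nv r t + 1 := nv_lip r t

lemma nv2 (r : List (ℕ ⊕ A)) (t : ℕ) : nv r t ≤ nv r (t + 1) := nv_le r t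

/-- first position with the same symbol -/
noncomputable def fo (q : List (ℕ ⊕ A)) (i : ℕ) : ℕ := sInf {e | q[e]? = q[i]?}

lemma fo_spec (q : List (ℕ ⊕ A)) (i : ℕ) : q[fo q i]? = q[i]? :=
  Nat.sInf_mem (s := {e | q[e]? = q[i]?}) ⟨i, rfl⟩

lemma fo_le (q : List (ℕ ⊕ A)) {i e : ℕ} (h : q[e]? = q[i]?) : fo q i ≤ e := Nat.sInf_le h

variable [Fintype A] [Inhabited A]

/-- the word obtained from `p` by single letters -/
noncomputable def W (p : List (ℕ ⊕ A)) (u : {x // x ∈ vars p} → A) : List A := by
  classical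
  exact lets (fun x => if hx : x ∈ vars p then u ⟨x, hx⟩ else default) p

lemma W_get (p : List (ℕ ⊕ A)) (u : {x // x ∈ vars p} → A) (t : ℕ) {x : ℕ} (hx : x ∈ vars p)
    (h : p[t]? = some (Sum.inl x)) : (W p u)[t]?.getD default = u ⟨x, hx⟩ := by
  unfold W
  rw [lets, List.getElem?_map, h]
  simp [hx]

lemma W_congr (p : List (ℕ ⊕ A)) (u u' : {x // x ∈ vars p} → A) (t : ℕ)
    (h : ∀ y : {x // x ∈ vars p}, p[t]? = some (Sum.inl y.1) → u y = u' y) :
    (W p u)[t]?.getD default = (W p u')[t]?.getD default := by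
  unfold W
  rw [lets, lets, List.getElem?_map, List.getElem?_map]
  rcases hp : p[t]? with _ | s
  · rfl
  · rcases s with x | a
    · by_cases hx : x ∈ vars p
      · have := h ⟨x, hx⟩ hp
        simp [hx, this]
      · simp [hx]
    · rfl

lemma W_length (p : List (ℕ ⊕ A)) (u : {x // x ∈ vars p} → A) : (W p u).length = p.length := by
  unfold W
  exact lets_length _ _

lemma W_mem (p : List (ℕ ⊕ A)) (u : {x // x ∈ vars p} → A) : W p u ∈ Lang p := by
  unfold W
  exact lets_mem _ _

/-- crossing positions of given levels -/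
noncomputable def ps (p q : List (ℕ ⊕ A)) {m : ℕ} (a : Fin m → ℕ) (v : Fin m) : ℕ :=
  cr (nv p) (nv q) (v.val + 1) (a v)

/-- the predicted letter -/
noncomputable def tg (p q : List (ℕ ⊕ A)) (i τ : ℕ) (u : {x // x ∈ vars p} → A) : A :=
  match q[i]? with
  | some (Sum.inr c) => c
  | _ => (W p u)[τ]?.getD default

/-- the set of assignments following given data -/
noncomputable def good (p q : List (ℕ ⊕ A)) {m : ℕ} (a b : Fin m → ℕ) :
    Finset ({x // x ∈ vars p} → A) := by
  classical
  exact univ.filter fun u => (∀ v, (S (nv p) (nv q) (v.val + 1) (a v)).Nonempty) ∧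
    (∀ v, (∃ c, q[ps p q a v]? = some (Sum.inr c)) ∨
      fo q (ps p q a v) + b v < ps p q a v + a v) ∧
    ∀ v, (W p u)[ps p q a v + a v]?.getD default = tg p q (ps p q a v) (fo q (ps p q a v) + b v) u

lemma good_card (p q : List (ℕ ⊕ A)) {m : ℕ} (a b : Fin m → ℕ) (ha : Monotone a) :
    (good p q a b).card * Fintype.card A ^ m ≤ Fintype.card A ^ nvar p := by
  classical
  by_cases hne : ∀ v, (S (nv p) (nv q) (v.val + 1) (a v)).Nonempty
  swap
  · have : good p q a b = ∅ := by
      unfold good
      rw [filter_eq_empty_iff]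
      intro u _ h
      exact hne h.1
    rw [this]; simp
  by_cases hc : ∀ v, (∃ c, q[ps p q a v]? = some (Sum.inr c)) ∨
      fo q (ps p q a v) + b v < ps p q a v + a v
  swap
  · have : good p q a b = ∅ := by
      unfold good
      rw [filter_eq_empty_iff]
      intro u _ h
      exact hc h.2.1
    rw [this]; simp
  have hsp : ∀ v : Fin m, ∃ x, p[ps p q a v + a v]? = some (Sum.inl x) ∧
      ∀ e < ps p q a v + a v, p[e]? ≠ some (Sum.inl x) := by
    intro v
    have h1 := (cr_spec (nv0 p) (nv1 p) (nv2 q) (by omega : 1 ≤ v.val + 1) (hne v)).2.1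
    exact nv_new h1
  choose x hx1 hx2 using hsp
  have hxv : ∀ v, x v ∈ vars p := by
    intro v
    rw [mem_vars']
    exact List.mem_of_getElem? (hx1 v)
  have hlt : ∀ v v' : Fin m, v < v' → ps p q a v + a v < ps p q a v' + a v' := by
    intro v v' h
    exact time_lt (nv0 p) (nv1 p) (nv2 q) (by omega) (by have : v.val < v'.val := h; omega)
      (ha h.le) (hne v) (hne v')
  have hnot : ∀ (v v' : Fin m) (e : ℕ), v ≤ v' → e < ps p q a v + a v →
      p[e]? ≠ some (Sum.inl (x v')) := by
    intro v v' e h he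
    apply hx2 v'
    rcases h.lt_or_eq with h | h
    · exact he.trans (hlt v v' h)
    · rw [← h]; exact he
  have hinj : Function.Injective (fun v => (⟨x v, hxv v⟩ : {x // x ∈ vars p})) := by
    intro v v' h
    have h' : x v = x v' := congrArg Subtype.val h
    rcases lt_trichotomy v v' with h2 | h2 | h2
    · exact absurd (h' ▸ hx1 v) (hx2 v' _ (hlt v v' h2))
    · exact h2
    · exact absurd (h' ▸ hx1 v') (hx2 v _ (hlt v' v h2))
  have hT := card_tri (A := A) (fun v => (⟨x v, hxv v⟩ : {x // x ∈ vars p})) hinj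
    (fun v u => tg p q (ps p q a v) (fo q (ps p q a v) + b v) u) (by
      intro v u u' huu
      unfold tg
      rcases hc v with ⟨c, hcc⟩ | h2
      · rw [hcc]
      · have h3 : (W p u)[fo q (ps p q a v) + b v]?.getD default =
            (W p u')[fo q (ps p q a v) + b v]?.getD default := by
          apply W_congr
          intro y hy
          apply huu
          intro v' hv' hyx
          rw [hyx] at hy
          exact hnot v v' _ hv' h2 hy
        split
        · rfl
        · exact h3)
  have hcardV : Fintype.card {x // x ∈ vars p} = nvar p := by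
    rw [Fintype.card_coe, card_vars]
  rw [hcardV] at hT
  refine le_trans (Nat.mul_le_mul_right _ (card_le_card ?_)) hT
  intro u hu
  unfold good at hu
  rw [mem_filter] at hu ⊢
  refine ⟨mem_univ _, fun v => ?_⟩
  have h1 := hu.2.2.2 v
  rw [W_get p u _ (hxv v) (hx1 v)] at h1
  exact h1

/-- **Main inequality.** -/
theorem core {p q : List (ℕ ⊕ A)} {l m : ℕ} (h : Lang p ⊆ Lang q)
    (hl : p.length = q.length + l)
    (hm : ((m + l).choose l) ^ 2 < Fintype.card A ^ m) : nvar p < nvar q + l + m := by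
  classical
  by_contra hcon
  push Not at hcon
  have hm1 : 1 ≤ m := by
    by_contra h0
    have : m = 0 := by omega
    subst this
    simp at hm
  have hn : 1 ≤ q.length := by
    by_contra h0
    have h1 := nvar_le_length p
    omega
  have hend : nv q q.length + l + m ≤ nv p (q.length + l) := by
    unfold nv
    rw [← hl, List.take_length, List.take_length]
    exact hcon
  let M := {f : Fin m → Fin (l + 1) // Monotone f}
  have : Fintype M := Fintype.ofFinite _
  let σ : (Fin m → ℕ) → Equiv.Perm (Fin m) := fun a => Tuple.sort fun v => fo q (ps p q a v)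
  let aa : M × M → Fin m → ℕ := fun δ v => (δ.1.1 v : ℕ)
  let bb : M × M → Fin m → ℕ := fun δ v => (δ.2.1 ((σ (aa δ)).symm v) : ℕ)
  have hcover : (univ : Finset ({x // x ∈ vars p} → A)) ⊆
      (univ : Finset (M × M)).biUnion fun δ => good p q (aa δ) (bb δ) := by
    intro u _
    obtain ⟨α, f, hα, hαl, hf, hfw⟩ := path_exists (h (W_mem p u)) ((W_length p u).trans hl)
    have hcr := fun v : Fin m => crossing (P := nv p) (Q := nv q) (nv1 p) hn hend hα hαl
      (v := v.val + 1) (by have := v.2; omega)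
    let iv : Fin m → ℕ := fun v => sInf {i | i ∈ S (nv p) (nv q) (v.val + 1) (α i)}
    have hiv_mono : Monotone iv := by
      intro v v' hvv
      apply Nat.sInf_le
      have h1 : iv v' ∈ S (nv p) (nv q) (v'.val + 1) (α (iv v')) := (hcr v').2.2.1
      have : v.val ≤ v'.val := hvv
      exact S_anti (nv1 p) (by omega) le_rfl h1
    let a0 : Fin m → Fin (l + 1) := fun v => ⟨α (iv v), Nat.lt_succ_of_le (hαl _)⟩
    have ha0 : Monotone a0 := fun v v' hvv => hα (hiv_mono hvv)
    have hps : ∀ v, ps p q (fun v => (a0 v : ℕ)) v = iv v := fun v => (hcr v).2.2.2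
    let b0 : Fin m → Fin (l + 1) := fun j =>
      ⟨α (fo q (ps p q (fun v => (a0 v : ℕ)) (σ (fun v => (a0 v : ℕ)) j))),
        Nat.lt_succ_of_le (hαl _)⟩
    have hb0 : Monotone b0 := by
      intro j j' hjj
      apply hα
      exact Tuple.monotone_sort (fun v => fo q (ps p q (fun v => (a0 v : ℕ)) v)) hjj
    rw [mem_biUnion]
    refine ⟨(⟨a0, ha0⟩, ⟨b0, hb0⟩), mem_univ _, ?_⟩
    have haa : aa (⟨a0, ha0⟩, ⟨b0, hb0⟩) = fun v => (a0 v : ℕ) := rfl
    have hbb : ∀ v, bb (⟨a0, ha0⟩, ⟨b0, hb0⟩) v = α (fo q (iv v)) := by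
      intro v
      show α (fo q (ps p q (fun v => (a0 v : ℕ)) (σ (fun v => (a0 v : ℕ))
        ((σ (fun v => (a0 v : ℕ))).symm v)))) = _
      rw [Equiv.apply_symm_apply, hps]
    unfold good
    rw [mem_filter, haa]
    have hne : ∀ v : Fin m, (S (nv p) (nv q) (v.val + 1) (a0 v : ℕ)).Nonempty :=
      fun v => ⟨_, (hcr v).2.2.1⟩
    have hlt : ∀ v, iv v < q.length := fun v => (hcr v).1
    refine ⟨mem_univ _, hne, ?_, ?_⟩
    · intro v
      rw [hps, hbb]
      have h1 := (cr_spec (nv0 p) (nv1 p) (nv2 q) (by omega : 1 ≤ v.val + 1) (hne v)).1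
      have h2 : cr (nv p) (nv q) (v.val + 1) (a0 v : ℕ) = iv v := hps v
      rw [h2] at h1
      rcases nv_old (hlt v) h1 with h3 | ⟨y, e, he, h3, h4⟩
      · exact Or.inl h3
      · right
        have h5 : fo q (iv v) ≤ e := fo_le q (by rw [h3, h4])
        have h6 : α (fo q (iv v)) ≤ α (iv v) := hα (by omega)
        show fo q (iv v) + α (fo q (iv v)) < iv v + α (iv v)
        omega
    · intro v
      rw [hps, hbb]
      have h1 : iv v < q.length := hlt v
      obtain ⟨s, hs⟩ : ∃ s, q[iv v]? = some s := ⟨_, List.getElem?_eq_getElem h1⟩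
      have h2 := hfw _ _ hs
      have h3 := hfw (fo q (iv v)) s (by rw [fo_spec, hs])
      have h4 : (W p u)[iv v + (a0 v : ℕ)]? = some (f s) := h2
      rw [h4]
      unfold tg
      rw [hs]
      rcases s with y | c
      · simp only [Option.getD_some]
        rw [h3]
        rfl
      · simp only [Option.getD_some]
        exact hf c
  have h1 := card_le_card hcover
  have h2 := h1.trans card_biUnion_le
  rw [card_univ, Fintype.card_fun, Fintype.card_coe, card_vars] at h2
  have h3 : Fintype.card A ^ nvar p * Fintype.card A ^ m ≤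
      Fintype.card (M × M) * Fintype.card A ^ nvar p := by
    calc Fintype.card A ^ nvar p * Fintype.card A ^ m
        ≤ (∑ δ : M × M, (good p q (aa δ) (bb δ)).card) * Fintype.card A ^ m :=
          Nat.mul_le_mul_right _ h2
      _ = ∑ δ : M × M, (good p q (aa δ) (bb δ)).card * Fintype.card A ^ m := sum_mul _ _ _
      _ ≤ ∑ _δ : M × M, Fintype.card A ^ nvar p :=
          sum_le_sum fun δ _ => good_card p q _ _ fun v v' hvv => δ.1.2 hvv
      _ = _ := by rw [sum_const, card_univ, smul_eq_mul]
  have h4 : Fintype.card A ^ m ≤ Fintype.card (M × M) := by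
    rw [mul_comm] at h3
    exact Nat.le_of_mul_le_mul_right h3 (by positivity)
  have h5 : Fintype.card (M × M) ≤ ((m + l).choose l) ^ 2 := by
    rw [Fintype.card_prod, ← Nat.card_eq_fintype_card, sq]
    exact Nat.mul_le_mul (card_mono m l) (card_mono m l)
  omega

end main

end Pool.Agent.W1.Pat
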