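import Mathlib
import Pool.Agent.W1.PatMain

/-!
# The law and the inclusion depth
-/

namespace Pool.Agent.W1.Pat

open Pool.Agent.PatDepth Pool.Agent.H344R3.PD

variable {A : Type}

lemma num_law {c s l : ℕ} (hc : 1 ≤ c) (hs : ((c + 1) ^ (c + 1)) ^ 2 ≤ (c ^ c) ^ 2 * s ^ c)
    (hl : 1 ≤ l) : ((c * l + l).choose l) ^ 2 < s ^ (c * l) := by
  have h1 := choose_bound c l hc hl
  have h0 : c * l + l = (c + 1) * l := by ring
  rw [h0]
  set C := ((c + 1) * l).choose l
  have h2 : (C * (c ^ c) ^ l) ^ 2 < (((c + 1) ^ (c + 1)) ^ l) ^ 2 :=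
    Nat.pow_lt_pow_left h1 (by norm_num)
  have h3 : (((c + 1) ^ (c + 1)) ^ l) ^ 2 ≤ ((c ^ c) ^ 2 * s ^ c) ^ l := by
    calc (((c + 1) ^ (c + 1)) ^ l) ^ 2 = (((c + 1) ^ (c + 1)) ^ 2) ^ l := pow_right_comm _ _ _
      _ ≤ _ := Nat.pow_le_pow_left hs l
  have h4 : (C * (c ^ c) ^ l) ^ 2 = C ^ 2 * ((c ^ c) ^ l) ^ 2 := by ring
  have h5 : ((c ^ c) ^ 2 * s ^ c) ^ l = s ^ (c * l) * ((c ^ c) ^ l) ^ 2 := by
    have h7 : ((c ^ c) ^ 2) ^ l = ((c ^ c) ^ l) ^ 2 := pow_right_comm _ _ _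
    rw [mul_pow, h7, pow_mul s c l]
    exact mul_comm _ _
  have h6 : C ^ 2 * ((c ^ c) ^ l) ^ 2 < s ^ (c * l) * ((c ^ c) ^ l) ^ 2 := by
    rw [← h4, ← h5]; exact lt_of_lt_of_le h2 h3
  exact lt_of_mul_lt_mul_right h6 (Nat.zero_le _)

/-- the law with the constant `c` -/
theorem law [Fintype A] [Nontrivial A] {p q : List (ℕ ⊕ A)} {c : ℕ} (hc : 1 ≤ c)
    (hs : ((c + 1) ^ (c + 1)) ^ 2 ≤ (c ^ c) ^ 2 * Fintype.card A ^ c) (h : Lang p ⊂ Lang q) :
    (c + 1) * q.length + nvar p < (c + 1) * p.length + nvar q := by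
  have h0 := ne_length h.subset
  rcases Nat.eq_zero_or_pos (p.length - q.length) with h1 | h1
  · have h2 := partOne h (by omega)
    have h3 : p.length = q.length := by omega
    rw [h3] at h2 ⊢
    omega
  · obtain ⟨d⟩ : Nonempty A := inferInstance
    haveI : Inhabited A := ⟨d⟩
    have h2 := core h.subset h0 (num_law hc hs h1)
    have h3 : (c + 1) * p.length = (c + 1) * q.length + (c + 1) * (p.length - q.length) := by
      conv_lhs => rw [h0]
      ring
    have h4 : (c + 1) * (p.length - q.length) = c * (p.length - q.length) +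
      (p.length - q.length) := by ring
    omega

/-- the upper bound for the inclusion depth -/
theorem depth_le [Fintype A] [Nontrivial A] {p : List (ℕ ⊕ A)} {c n : ℕ} (hc : 1 ≤ c)
    (hs : ((c + 1) ^ (c + 1)) ^ 2 ≤ (c ^ c) ^ 2 * Fintype.card A ^ c) (h : HasChain p n) :
    n + c + nvar p ≤ (c + 1) * p.length := by
  obtain ⟨f, _, hc0, hcn, hstep⟩ := h
  have key : ∀ i ≤ n, i + c + nvar (f i) ≤ (c + 1) * (f i).length := by
    intro i
    induction i with
    | zero =>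
      intro _
      obtain ⟨h1, h2⟩ := lang_eq_invariant hc0
      have h3 : nvar ([Sum.inl 1] : List (ℕ ⊕ A)) = 1 := by simp [nvar]
      rw [h1, h2, h3]
      simp
    | succ i ih =>
      intro hi
      have h1 := hstep i (by omega)
      have h2 := ih (by omega)
      have h4 := law hc hs h1
      omega
  obtain ⟨h1, h2⟩ := lang_eq_invariant hcn
  have := key n le_rfl
  rw [h1, h2] at this
  exact this

/-- the exact depth for at least 16 letters -/
theorem depth_exact [Fintype A] [Nontrivial A] (hA : 16 ≤ Fintype.card A) {p : List (ℕ ⊕ A)}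
    (h0 : p ≠ []) : IsGreatest {n | HasChain p n} (2 * p.length - nvar p - 1) := by
  constructor
  · obtain ⟨c, h1, h2, h3, h4⟩ := (chain_greatest h0).1
    exact ⟨c, h1, h2, h3, fun i hi => (h4 i hi).1⟩
  · intro n hn
    have := depth_le (c := 1) le_rfl (by norm_num; omega) hn
    omega

end Pool.Agent.W1.Pat
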