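import Mathlib
import Pool.Agent.W1.PatLaw

/-!
# The candidate function for the inclusion depth is primitive recursive
-/

namespace Pool.Agent.W1.Pat

open Pool.Agent.PatDepth Pool.Agent.H344R3.PD

/-- list of the distinct variables -/
def dist (p : List (ℕ ⊕ ℕ)) : List ℕ :=
  p.foldr (fun s acc => Sum.casesOn s (fun x => if acc.idxOf x < acc.length then acc else x :: acc)
    (fun _ => acc)) []

lemma vars_cons_l {A : Type} (x : ℕ) (p : List (ℕ ⊕ A)) :
    vars (Sum.inl x :: p) = insert x (vars p) := by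
  ext y
  simp only [mem_vars', List.mem_cons, Sum.inl.injEq, Finset.mem_insert]

lemma vars_cons_r {A : Type} (a : A) (p : List (ℕ ⊕ A)) : vars (Sum.inr a :: p) = vars p := by
  ext y
  simp [mem_vars']

lemma dist_spec (p : List (ℕ ⊕ ℕ)) : (dist p).Nodup ∧ (dist p).toFinset = vars p := by
  induction p with
  | nil => simp [dist, vars]
  | cons s p ih =>
    obtain ⟨h1, h2⟩ := ih
    rcases s with x | a
    · have h3 : dist (Sum.inl x :: p) =
          if (dist p).idxOf x < (dist p).length then dist p else x :: dist p := rfl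
      rw [h3, vars_cons_l]
      by_cases hx : (dist p).idxOf x < (dist p).length
      · rw [if_pos hx]
        have hx2 : x ∈ dist p := List.idxOf_lt_length_iff.mp hx
        refine ⟨h1, ?_⟩
        rw [h2, Finset.insert_eq_self.mpr]
        rw [← h2]; exact List.mem_toFinset.mpr hx2
      · rw [if_neg hx]
        have hx2 : x ∉ dist p := fun h => hx (List.idxOf_lt_length_iff.mpr h)
        refine ⟨List.nodup_cons.mpr ⟨hx2, h1⟩, ?_⟩
        rw [List.toFinset_cons, h2]
    · have h3 : dist (Sum.inr a :: p) = dist p := rfl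
      rw [h3, vars_cons_r]
      exact ⟨h1, h2⟩

lemma dist_length (p : List (ℕ ⊕ ℕ)) : (dist p).length = nvar p := by
  obtain ⟨h1, h2⟩ := dist_spec p
  rw [← card_vars, ← h2, List.toFinset_card_of_nodup h1]

lemma primrec_dist : Primrec dist := by
  unfold dist
  refine Primrec.list_foldr (α := List (ℕ ⊕ ℕ)) (β := ℕ ⊕ ℕ) (σ := List ℕ)
    (h := fun _ b => Sum.casesOn b.1
      (fun x => if b.2.idxOf x < b.2.length then b.2 else x :: b.2) (fun _ => b.2))
    Primrec.id (Primrec.const []) ?_
  refine Primrec.sumCasesOn (Primrec.fst.comp Primrec.snd) ?_ ?_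
  · have h1 : Primrec fun a : (List (ℕ ⊕ ℕ) × ((ℕ ⊕ ℕ) × List ℕ)) × ℕ => a.1.2.2 :=
      Primrec.snd.comp (Primrec.snd.comp Primrec.fst)
    exact Primrec.ite (Primrec.nat_lt.comp (Primrec.list_idxOf.comp Primrec.snd h1)
      (Primrec.list_length.comp h1)) h1 (Primrec.list_cons.comp Primrec.snd h1)
  · exact Primrec.snd.comp (Primrec.snd.comp Primrec.fst)

theorem primrec_formula : Primrec fun p : List (ℕ ⊕ ℕ) => 2 * p.length - nvar p - 1 := by
  have h1 : (fun p : List (ℕ ⊕ ℕ) => 2 * p.length - nvar p - 1) =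
      fun p => 2 * p.length - (dist p).length - 1 := by
    funext p
    rw [dist_length]
  rw [h1]
  exact Primrec.nat_sub.comp (Primrec.nat_sub.comp
    (Primrec.nat_mul.comp (Primrec.const 2) Primrec.list_length)
    (Primrec.list_length.comp primrec_dist)) (Primrec.const 1)

lemma nvar_map {A : Type} (φ : A → ℕ) (p : List (ℕ ⊕ A)) :
    nvar (p.map (Sum.map id φ)) = nvar p := by
  rw [← card_vars, ← card_vars]
  congr 1
  ext y
  rw [mem_vars', mem_vars', List.mem_map]
  constructor
  · rintro ⟨s, hs, h⟩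
    rcases s with x | a
    · simp only [Sum.map_inl, id, Sum.inl.injEq] at h
      rw [← h]; exact hs
    · simp at h
  · intro h
    exact ⟨_, h, rfl⟩

end Pool.Agent.W1.Pat
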