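import Mathlib
import Pool.Agent.W1.PatMain

/-!
# Steps that are short compared with the alphabet
-/

namespace Pool.Agent.W1.Pat

open Pool.Agent.PatDepth Pool.Agent.H344R3.PD Finset

variable {A : Type} [Fintype A] [Inhabited A]

lemma tg_congr (p q : List (ℕ ⊕ A)) (i τ : ℕ) (u u' : {x // x ∈ vars p} → A)
    (h : (∃ c, q[i]? = some (Sum.inr c)) ∨
      (W p u)[τ]?.getD default = (W p u')[τ]?.getD default) :
    tg p q i τ u = tg p q i τ u' := by
  unfold tg
  rcases h with ⟨c, hc⟩ | h
  · rw [hc]
  · split
    · rfl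
    · exact h

/-- an inclusion with `|p| = |q| + l` and at least `l + 2` letters has at most `l` new variables -/
theorem small {p q : List (ℕ ⊕ A)} {l : ℕ} (hA : l + 2 ≤ Fintype.card A) (h : Lang p ⊆ Lang q)
    (hl : p.length = q.length + l) : nvar p ≤ nvar q + l := by
  classical
  by_contra hcon
  push Not at hcon
  have hn : 1 ≤ q.length := by
    by_contra h0
    have h1 := nvar_le_length p
    omega
  have hend : nv q q.length + l + 1 ≤ nv p (q.length + l) := by
    unfold nv
    rw [← hl, List.take_length, List.take_length]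
    omega
  have hne : ∀ a, a ≤ l → (S (nv p) (nv q) 1 a).Nonempty := by
    intro a ha
    have h1 := (crossing (P := nv p) (Q := nv q) (nv1 p) hn hend (α := fun _ => a)
      monotone_const (fun _ => ha) (v := 1) le_rfl).2.2.1
    exact ⟨_, h1⟩
  let c1 : ℕ → ℕ := fun a => cr (nv p) (nv q) 1 a
  have hsp : ∀ a, a ≤ l → ∃ x, p[c1 a + a]? = some (Sum.inl x) ∧
      ∀ e < c1 a + a, p[e]? ≠ some (Sum.inl x) := by
    intro a ha
    exact nv_new (cr_spec (nv0 p) (nv1 p) (nv2 q) le_rfl (hne a ha)).2.1
  have hlt : ∀ a a', a < a' → a' ≤ l → c1 a + a < c1 a' + a' := by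
    intro a a' h1 h2
    have h3 := cr_mono (P := nv p) (Q := nv q) (nv1 p) (le_refl 1) h1.le (hne a' h2)
    show cr (nv p) (nv q) 1 a + a < cr (nv p) (nv q) 1 a' + a'
    omega
  have hstep : ∀ j, j ≤ l + 1 → ∃ u : {x // x ∈ vars p} → A, ∀ a < j, ∀ b ≤ a,
      ((∃ c, q[c1 a]? = some (Sum.inr c)) ∨ fo q (c1 a) + b < c1 a + a) →
      (W p u)[c1 a + a]?.getD default ≠ tg p q (c1 a) (fo q (c1 a) + b) u := by
    intro j
    induction j with
    | zero => intro _; exact ⟨fun _ => default, fun a ha => by omega⟩
    | succ j ih =>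
      intro hj
      obtain ⟨u, hu⟩ := ih (by omega)
      obtain ⟨x, hx1, hx2⟩ := hsp j (by omega)
      have hxv : x ∈ vars p := by
        rw [mem_vars']; exact List.mem_of_getElem? hx1
      obtain ⟨c, hc⟩ : ∃ c, c ∉ (range (j + 1)).image
          (fun b => tg p q (c1 j) (fo q (c1 j) + b) u) := by
        by_contra hall
        push Not at hall
        have h1 : (univ : Finset A) ⊆ (range (j + 1)).image
          (fun b => tg p q (c1 j) (fo q (c1 j) + b) u) := fun c _ => hall c
        have h2 := (card_le_card h1).trans card_image_le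
        rw [card_univ, card_range] at h2
        omega
      have hcong : ∀ τ < c1 j + j, (W p u)[τ]?.getD default =
          (W p (Function.update u ⟨x, hxv⟩ c))[τ]?.getD default := by
        intro τ hτ
        apply W_congr
        intro y hy
        rw [Function.update_of_ne]
        intro hyx
        rw [hyx] at hy
        exact hx2 τ hτ hy
      refine ⟨Function.update u ⟨x, hxv⟩ c, fun a ha b hb hcase => ?_⟩
      rcases Nat.lt_or_ge a j with h1 | h1
      · have h2 := hlt a j h1 (by omega)
        have h3 := hu a h1 b hb hcase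
        rw [← hcong _ h2]
        rw [← tg_congr p q (c1 a) (fo q (c1 a) + b) u]
        · exact h3
        · rcases hcase with h4 | h4
          · exact Or.inl h4
          · exact Or.inr (hcong _ (h4.trans h2))
      · have h2 : a = j := by omega
        subst h2
        rw [W_get p _ _ hxv hx1, Function.update_self]
        rw [← tg_congr p q (c1 a) (fo q (c1 a) + b) u]
        · intro h3
          apply hc
          rw [mem_image]
          exact ⟨b, mem_range.mpr (by omega), h3.symm⟩
        · rcases hcase with h4 | h4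
          · exact Or.inl h4
          · exact Or.inr (hcong _ h4)
  obtain ⟨u, hu⟩ := hstep (l + 1) le_rfl
  obtain ⟨α, f, hα, hαl, hf, hfw⟩ := path_exists (h (W_mem p u)) ((W_length p u).trans hl)
  obtain ⟨hi1, _, hi3, hi4⟩ := crossing (P := nv p) (Q := nv q) (nv1 p) hn hend hα hαl
    (v := 1) le_rfl
  set i := sInf {i | i ∈ S (nv p) (nv q) 1 (α i)} with hi
  have hci : c1 (α i) = i := hi4
  have hfo : fo q i ≤ i := fo_le q rfl
  have h1 := (cr_spec (nv0 p) (nv1 p) (nv2 q) le_rfl (hne (α i) (hαl i))).1
  rw [hi4] at h1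
  have hcase : (∃ c, q[i]? = some (Sum.inr c)) ∨ fo q i + α (fo q i) < i + α i := by
    rcases nv_old hi1 h1 with h3 | ⟨y, e, he, h3, h4⟩
    · exact Or.inl h3
    · right
      have h5 : fo q i ≤ e := fo_le q (by rw [h3, h4])
      have h6 : α (fo q i) ≤ α i := hα (by omega)
      omega
  have h2 := hu (α i) (Nat.lt_succ_of_le (hαl i)) (α (fo q i)) (hα hfo)
    (by rw [hci]; exact hcase)
  rw [hci] at h2
  apply h2
  obtain ⟨s, hs⟩ : ∃ s, q[i]? = some s := ⟨_, List.getElem?_eq_getElem hi1⟩
  have h3 := hfw _ _ hs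
  have h4 := hfw (fo q i) s (by rw [fo_spec, hs])
  rw [h3]
  unfold tg
  rw [hs]
  rcases s with y | c
  · simp only [Option.getD_some]
    rw [h4]
    rfl
  · simp only [Option.getD_some]
    exact hf c

end Pool.Agent.W1.Pat
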